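import Mathlib

/-! Greedy coverings of intervals of integers. -/

set_option autoImplicit false

namespace Pool.Agent.K4H2.OL

open Finset

/-- one-sided maximal inequality with errors -/
theorem cover (F G : ℕ → ℝ) (c R lam : ℝ) (H0 V x0 : ℕ) (hc : 0 ≤ c) (hR : 0 ≤ R) (hlam : 0 ≤ lam)
    (hH0 : 1 ≤ H0) (hG : Monotone G)
    (hF : ∀ u v : ℕ, x0 ≤ u → u ≤ v → v ≤ V → -(c * ((v : ℝ) - u) + (G v - G u) + R) ≤ F v - F u)
    (B : Finset ℕ) (hB : ∀ n ∈ B, ∃ H : ℕ, H0 ≤ H ∧ n + H ≤ V ∧ lam * H ≤ F (n + H) - F n) :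
    ∀ u : ℕ, x0 ≤ u → u ≤ V → lam * ((B.filter (fun n => u ≤ n)).card : ℝ) ≤
      F V - F u + c * ((V : ℝ) - u) + (G V - G u) + R * (((V : ℝ) - u) / H0 + 1) := by
  have key : ∀ d u : ℕ, V - u ≤ d → x0 ≤ u → u ≤ V → lam * ((B.filter (fun n => u ≤ n)).card : ℝ) ≤
      F V - F u + c * ((V : ℝ) - u) + (G V - G u) + R * (((V : ℝ) - u) / H0 + 1) := by
    intro d
    induction d using Nat.strong_induction_on with
    | _ d ih =>
      intro u hd hu1 hu2
      have hH0r : (0 : ℝ) < H0 := by exact_mod_cast hH0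
      have hVu : (0 : ℝ) ≤ (V : ℝ) - u := by
        have : (u : ℝ) ≤ V := by exact_mod_cast hu2
        linarith
      rcases (B.filter (fun n => u ≤ n)).eq_empty_or_nonempty with h0 | h0
      · rw [h0]
        have h1 := hF u V hu1 hu2 le_rfl
        have h2 : 0 ≤ ((V : ℝ) - u) / H0 := by positivity
        have h3 : 0 ≤ R * (((V : ℝ) - u) / H0) := by positivity
        simp only [card_empty, Nat.cast_zero, mul_zero]
        linarith
      · obtain ⟨n0, hn0⟩ : ∃ n0, n0 = (B.filter (fun n => u ≤ n)).min' h0 := ⟨_, rfl⟩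
        have hn0mem : n0 ∈ B.filter (fun n => u ≤ n) := by rw [hn0]; exact min'_mem _ _
        rw [mem_filter] at hn0mem
        obtain ⟨H, hH1, hH2, hH3⟩ := hB n0 hn0mem.1
        have hwu : u + 1 ≤ n0 + H := by omega
        have hih := ih (d - 1) (by omega) (n0 + H) (by omega) (by omega) hH2
        have hsub : B.filter (fun n => u ≤ n) ⊆ B.filter (fun n => n0 + H ≤ n) ∪ Ico n0 (n0 + H) := by
          intro n hn
          have hle : n0 ≤ n := by rw [hn0]; exact min'_le _ _ hn
          rw [mem_filter] at hn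
          rw [mem_union, mem_filter, mem_Ico]
          by_cases h : n0 + H ≤ n
          · exact Or.inl ⟨hn.1, h⟩
          · exact Or.inr ⟨hle, by omega⟩
        have hcard := (card_le_card hsub).trans (card_union_le _ _)
        rw [Nat.card_Ico, Nat.add_sub_cancel_left] at hcard
        have hcard' : ((B.filter (fun n => u ≤ n)).card : ℝ) ≤
            ((B.filter (fun n => n0 + H ≤ n)).card : ℝ) + H := by exact_mod_cast hcard
        have h1 := mul_le_mul_of_nonneg_left hcard' hlam
        have h2 := hF u n0 hu1 hn0mem.2 (by omega)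
        have h3 : (0 : ℝ) ≤ (n0 : ℝ) - u := by
          have : (u : ℝ) ≤ n0 := by exact_mod_cast hn0mem.2
          linarith
        have hHr : (H0 : ℝ) ≤ H := by exact_mod_cast hH1
        have h4 : R * (((V : ℝ) - ((n0 + H : ℕ) : ℝ)) / H0 + 1) + R ≤ R * (((V : ℝ) - u) / H0 + 1) := by
          have e : ((V : ℝ) - ((n0 + H : ℕ) : ℝ)) / H0 + 1 ≤ ((V : ℝ) - u) / H0 := by
            rw [div_add_one hH0r.ne', div_le_div_iff_of_pos_right hH0r]
            push_cast
            linarith
          have := mul_le_mul_of_nonneg_left e hR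
          linarith
        have h5 : G n0 ≤ G (n0 + H) := hG (by omega)
        have h6 : 0 ≤ c * (H : ℝ) := by positivity
        push_cast at hih h4 ⊢
        nlinarith
  intro u h1 h2
  exact key (V - u) u le_rfl h1 h2

/-- upper bounds for all intervals from short blocks -/
theorem tile_upper (S G : ℕ → ℝ) (c : ℝ) (M V x0 : ℕ) (hc : 0 ≤ c) (hG : Monotone G)
    (hS : ∀ v : ℕ, -1 ≤ S (v + 1) - S v)
    (hb : ∀ u : ℕ, x0 ≤ u → u < V → ∃ k : ℕ, 1 ≤ k ∧ k ≤ M ∧ S (u + k) - S u ≤ c * k + (G (u + 1) - G u)) :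
    ∀ u v : ℕ, x0 ≤ u → u ≤ v → v ≤ V → S v - S u ≤ c * ((v : ℝ) - u) + (G v - G u) + (1 + c) * M := by
  have hS' : ∀ v d : ℕ, -(d : ℝ) ≤ S (v + d) - S v := by
    intro v d
    induction d with
    | zero => simp
    | succ d ih =>
      have := hS (v + d)
      push_cast
      rw [← add_assoc]
      linarith
  have key : ∀ d u v : ℕ, v - u ≤ d → x0 ≤ u → u ≤ v → v ≤ V →
      S v - S u ≤ c * ((v : ℝ) - u) + (G v - G u) + (1 + c) * M := by
    intro d
    induction d using Nat.strong_induction_on with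
    | _ d ih =>
      intro u v hd hu1 huv hv
      rcases Nat.eq_or_lt_of_le huv with h | h
      · subst h
        have : 0 ≤ (1 + c) * (M : ℝ) := by positivity
        simpa using this
      · obtain ⟨k, hk1, hk2, hk3⟩ := hb u hu1 (by omega)
        have hkM : (k : ℝ) ≤ M := by exact_mod_cast hk2
        rcases le_or_gt (u + k) v with h1 | h1
        · have h2 := ih (d - 1) (by omega) (u + k) v (by omega) (by omega) h1 hv
          have h3 : G (u + 1) ≤ G (u + k) := hG (by omega)
          push_cast at h2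
          nlinarith
        · obtain ⟨e, he⟩ : ∃ e, u + k = v + e := ⟨u + k - v, by omega⟩
          have h2 := hS' v e
          rw [← he] at h2
          have h3 : G (u + 1) ≤ G v := hG (by omega)
          have h4 : (e : ℝ) ≤ k := by
            have : e ≤ k := by omega
            exact_mod_cast this
          have h5 : (0 : ℝ) ≤ c * ((v : ℝ) - u) := by
            have : (u : ℝ) ≤ v := by exact_mod_cast huv
            apply mul_nonneg hc
            linarith
          have h6 : c * (k : ℝ) ≤ c * M := mul_le_mul_of_nonneg_left hkM hc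
          nlinarith
  intro u v h1 h2 h3
  exact key (v - u) u v le_rfl h1 h2 h3

end Pool.Agent.K4H2.OL
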