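import Pool.Agent.H357R2.SI.Common
import Pool.Agent.Helper602.MK.J3

/-! Eventual inequalities. -/

set_option autoImplicit false

namespace Pool.Agent.K4H2.OL

open Finset Filter Topology
open Pool.Agent.H357R2.SI

/-- the parameters at `N` -/
structure Par (ε θ : ℝ) (N : ℕ) : Prop where
  hX : θ * N / 2 ≤ (⌊θ * (N : ℝ)⌋₊ : ℝ)
  hX2 : 3 ≤ ⌊θ * (N : ℝ)⌋₊
  hL0 : 1 ≤ Real.log N
  hL1 : (1 - θ) * Real.log N ≤ Real.log (⌊θ * (N : ℝ)⌋₊ : ℝ)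
  hL2 : Real.log (3 * N + 1 : ℝ) ≤ (1 + θ) * Real.log N
  hM : 2 * ((3 * (N : ℝ)) ^ (ε / 2) + 1) ≤ θ / 10 * ((⌊θ * (N : ℝ)⌋₊ : ℝ) ^ ε - 1)
  hH : 1 / θ ≤ (⌊θ * (N : ℝ)⌋₊ : ℝ) ^ ε
  hP1 : (1 - θ) * (3 * N) / Real.log (3 * N : ℝ) ≤ Nat.primeCounting (3 * N)
  hP2 : (Nat.primeCounting ⌊θ * (N : ℝ)⌋₊ : ℝ) ≤ (1 + θ) * ⌊θ * (N : ℝ)⌋₊ / Real.log ⌊θ * (N : ℝ)⌋₊
  hP3 : (Nat.primeCounting (3 * N + 1) : ℝ) ≤ 2 * (3 * N + 1) / Real.log (3 * N + 1 : ℝ)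

lemma ev_par (ε θ : ℝ) (hε : 0 < ε) (hε1 : ε ≤ 1) (hθ : 0 < θ) (hθ1 : θ ≤ 1 / 10) :
    ∀ᶠ N : ℕ in atTop, Par ε θ N := by
  have hNr : Tendsto (fun N : ℕ => (N : ℝ)) atTop atTop := tendsto_natCast_atTop_atTop
  have hX : Tendsto (fun N : ℕ => ⌊θ * (N : ℝ)⌋₊) atTop atTop :=
    tendsto_nat_floor_atTop.comp (hNr.const_mul_atTop hθ)
  have hXr : Tendsto (fun N : ℕ => (⌊θ * (N : ℝ)⌋₊ : ℝ)) atTop atTop :=
    tendsto_natCast_atTop_atTop.comp hX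
  have hlog : Tendsto (fun N : ℕ => Real.log (N : ℝ)) atTop atTop := Real.tendsto_log_atTop.comp hNr
  obtain ⟨X₀, hX₀3, hpnt⟩ := pnt θ hθ
  obtain ⟨X₁, hX₁3, hpnt1⟩ := pnt 1 one_pos
  have hpow : Tendsto (fun N : ℕ => (N : ℝ) ^ (ε / 2)) atTop atTop :=
    (tendsto_rpow_atTop (by positivity)).comp hNr
  filter_upwards [hX.eventually_ge_atTop (max 3 X₀), hlog.eventually_ge_atTop 1,
    hlog.eventually_ge_atTop (Real.log (2 / θ) / θ), hlog.eventually_ge_atTop (Real.log 4 / θ),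
    hpow.eventually_ge_atTop (400 / θ ^ 2), hNr.eventually_ge_atTop (max 2 (2 / θ)),
    eventually_ge_atTop (max X₀ X₁), ((tendsto_rpow_atTop hε).comp hXr).eventually_ge_atTop (1 / θ)]
    with N h1 h2 h3 h4 h5 h6 h7 h8
  have hN2 : (2 : ℝ) ≤ N := (le_max_left _ _).trans h6
  have hNθ : 2 / θ ≤ (N : ℝ) := (le_max_right _ _).trans h6
  have hN0 : (0 : ℝ) < N := by linarith
  have hNθ' : 2 ≤ θ * N := by rw [div_le_iff₀ hθ] at hNθ; linarith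
  have hXge : θ * N / 2 ≤ (⌊θ * (N : ℝ)⌋₊ : ℝ) := by
    have := Nat.lt_floor_add_one (θ * (N : ℝ))
    linarith
  have hX3 : 3 ≤ ⌊θ * (N : ℝ)⌋₊ := (le_max_left _ _).trans h1
  have hX3r : (3 : ℝ) ≤ (⌊θ * (N : ℝ)⌋₊ : ℝ) := by exact_mod_cast hX3
  have hXX₀ : X₀ ≤ ⌊θ * (N : ℝ)⌋₊ := (le_max_right _ _).trans h1
  have hNX₀ : X₀ ≤ 3 * N := by have := (le_max_left X₀ X₁).trans h7; omega
  have hNX₁ : X₁ ≤ 3 * N + 1 := by have := (le_max_right X₀ X₁).trans h7; omega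
  refine ⟨hXge, hX3, h2, ?_, ?_, ?_, h8, ?_, ?_, ?_⟩
  · have e1 : Real.log (θ * N / 2) ≤ Real.log (⌊θ * (N : ℝ)⌋₊ : ℝ) := Real.log_le_log (by positivity) hXge
    have e2 : Real.log (θ * N / 2) = Real.log N - Real.log (2 / θ) := by
      rw [show θ * (N : ℝ) / 2 = N / (2 / θ) by field_simp, Real.log_div (by positivity) (by positivity)]
    rw [div_le_iff₀ hθ] at h3
    linarith
  · have e1 : Real.log (3 * N + 1 : ℝ) ≤ Real.log (4 * N : ℝ) := Real.log_le_log (by positivity) (by linarith)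
    rw [Real.log_mul (by norm_num) hN0.ne'] at e1
    rw [div_le_iff₀ hθ] at h4
    linarith
  · -- with `y = N ^ (ε / 2)`
    obtain ⟨y, hy⟩ : ∃ y, y = (N : ℝ) ^ (ε / 2) := ⟨_, rfl⟩
    have hy1 : 400 / θ ^ 2 ≤ y := by rw [hy]; exact h5
    have hy2 : (N : ℝ) ^ ε = y * y := by
      rw [hy, ← Real.rpow_add hN0]
      congr 1
      ring
    have e1 : (3 * (N : ℝ)) ^ (ε / 2) ≤ 3 * y := by
      rw [Real.mul_rpow (by norm_num) hN0.le, hy]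
      apply mul_le_mul_of_nonneg_right _ (by positivity)
      calc (3 : ℝ) ^ (ε / 2) ≤ (3 : ℝ) ^ (1 : ℝ) :=
            Real.rpow_le_rpow_of_exponent_le (by norm_num) (by linarith)
        _ = 3 := Real.rpow_one _
    have e2 : θ / 2 * (y * y) ≤ (⌊θ * (N : ℝ)⌋₊ : ℝ) ^ ε := by
      have g1 : (θ * N / 2) ^ ε ≤ (⌊θ * (N : ℝ)⌋₊ : ℝ) ^ ε := Real.rpow_le_rpow (by positivity) hXge hε.le
      have g2 : (θ * N / 2) ^ ε = (θ / 2) ^ ε * (N : ℝ) ^ ε := by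
        rw [← Real.mul_rpow (by positivity) hN0.le]
        congr 1
        ring
      have g3 : θ / 2 ≤ (θ / 2) ^ ε := by
        calc θ / 2 = (θ / 2) ^ (1 : ℝ) := (Real.rpow_one _).symm
          _ ≤ (θ / 2) ^ ε := Real.rpow_le_rpow_of_exponent_ge (by positivity) (by linarith) hε1
      rw [g2, hy2] at g1
      exact (mul_le_mul_of_nonneg_right g3 (mul_self_nonneg y)).trans g1
    have hyθ : 400 ≤ θ ^ 2 * y := by
      rw [div_le_iff₀ (by positivity)] at hy1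
      linarith
    have hy0 : 0 < y := by
      have : 0 < 400 / θ ^ 2 := by positivity
      linarith
    have hy4 : 400 ≤ y := by
      have : θ ^ 2 * y ≤ 1 * y := mul_le_mul_of_nonneg_right (by nlinarith) hy0.le
      linarith
    have e3 : 20 * y ≤ θ ^ 2 / 20 * (y * y) := by
      have := mul_le_mul_of_nonneg_right hyθ hy0.le
      nlinarith
    calc 2 * ((3 * (N : ℝ)) ^ (ε / 2) + 1) ≤ 2 * (3 * y + 1) := by linarith
      _ ≤ 20 * y - θ / 10 := by linarith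
      _ ≤ θ ^ 2 / 20 * (y * y) - θ / 10 := by linarith
      _ = θ / 10 * (θ / 2 * (y * y) - 1) := by ring
      _ ≤ _ := mul_le_mul_of_nonneg_left (by linarith) (by positivity)
  · have := (hpnt (3 * N) hNX₀).1
    push_cast at this
    exact this
  · exact (hpnt _ hXX₀).2
  · have := (hpnt1 (3 * N + 1) hNX₁).2
    push_cast at this
    have e : (1 + 1 : ℝ) = 2 := by norm_num
    rw [e] at this
    exact this

end Pool.Agent.K4H2.OL
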